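import Pool.Agent.Helper20.RG.St2
import Pool.Agent.Helper20.RG.St3

/-! Project RG, module F3 (one level). -/

set_option autoImplicit false

open MeasureTheory Set Filter Topology
open scoped ENNReal RealInnerProductSpace

namespace Pool.Agent.Helper76.RG

open Pool.Agent.Helper68.LM (Pl BB Bd Av HL ft fm DQ)
open Pool.Agent.Helper20.RG

/-! ## bounded functions -/

theorem BB_add_F3 {g h : Pl → ℝ} (hg : BB g) (hh : BB h) : BB (fun x => g x + h x) := by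
  obtain ⟨mg, K1, b1, z1⟩ := hg
  obtain ⟨mh, K2, b2, z2⟩ := hh
  have k1 : 0 ≤ K1 := le_trans (abs_nonneg _) (b1 0)
  have k2 : 0 ≤ K2 := le_trans (abs_nonneg _) (b2 0)
  refine ⟨mg.add mh, K1 + K2, fun x => ?_, fun x hx => ?_⟩
  · exact le_trans (abs_add_le _ _) (add_le_add (b1 x) (b2 x))
  · change g x + h x = 0
    rw [z1 x (by linarith), z2 x (by linarith)]
    simp

theorem BB_ind_F3 {g : Pl → ℝ} (hg : BB g) {S : Set Pl} (hS : MeasurableSet S) :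
    BB (S.indicator g) := by
  obtain ⟨mg, K1, b1, z1⟩ := hg
  have k1 : 0 ≤ K1 := le_trans (abs_nonneg _) (b1 0)
  refine ⟨mg.indicator hS, K1, fun x => ?_, fun x hx => ?_⟩
  · by_cases h : x ∈ S
    · rw [indicator_of_mem h]; exact b1 x
    · rw [indicator_of_notMem h]; simpa using k1
  · by_cases h : x ∈ S
    · rw [indicator_of_mem h]; exact z1 x hx
    · rw [indicator_of_notMem h]

theorem BB_zero_F3 : BB (fun _ : Pl => (0 : ℝ)) :=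
  ⟨measurable_const, 0, fun _ => by simp, fun _ _ => rfl⟩

theorem BB_smul_F3 {g : Pl → ℝ} (a : ℝ) (hg : BB g) : BB (fun x => a * g x) := by
  obtain ⟨mg, K1, b1, z1⟩ := hg
  have k1 : 0 ≤ K1 := le_trans (abs_nonneg _) (b1 0)
  refine ⟨mg.const_mul a, |a| * K1 + K1, fun x => ?_, fun x hx => ?_⟩
  · rw [abs_mul]
    have := mul_le_mul_of_nonneg_left (b1 x) (abs_nonneg a)
    linarith
  · have h0 : 0 ≤ |a| * K1 := by positivity
    change a * g x = 0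
    rw [z1 x (by linarith)]
    simp

/-! ## the operators -/

/-- the main sum of one level -/
noncomputable def VF3 (c : Pl) (φ τ : ℝ → ℝ) (u : ℕ) (k : ℤ) (h : Pl → ℝ) (x : Pl) : ℝ :=
  (1 / (2 : ℝ) ^ u) * ∑ j ∈ Finset.range (2 ^ u), Z (τ (tm u j)) (ce c φ u j) (mm τ u j)
    (mm τ (u - 1) (j / 2)) ((2 : ℝ) ^ (om u 0 0)) k h x

theorem VF3_lin (hYB : StYB) (c : Pl) {φ τ : ℝ → ℝ} (hG : Graph φ τ) (u : ℕ) (k : ℤ) (a : ℝ)
    {g h : Pl → ℝ} (hg : BB g) (hh : BB h) (x : Pl) :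
    VF3 c φ τ u k (fun y => a * g y + h y) x = a * VF3 c φ τ u k g x + VF3 c φ τ u k h x := by
  unfold VF3
  have hj : ∀ j ∈ Finset.range (2 ^ u), Z (τ (tm u j)) (ce c φ u j) (mm τ u j)
      (mm τ (u - 1) (j / 2)) ((2 : ℝ) ^ (om u 0 0)) k (fun y => a * g y + h y) x =
      a * Z (τ (tm u j)) (ce c φ u j) (mm τ u j)
        (mm τ (u - 1) (j / 2)) ((2 : ℝ) ^ (om u 0 0)) k g x +
      Z (τ (tm u j)) (ce c φ u j) (mm τ u j)
        (mm τ (u - 1) (j / 2)) ((2 : ℝ) ^ (om u 0 0)) k h x := by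
    intro j _
    unfold Z
    have h1 := (hYB (τ (tm u j)) (ce c φ u j) (mm τ u j) ((2 : ℝ) ^ (om u 0 0)) k g (hG.1 _)
      (by positivity) hg).2.2.2.2 a h hh x
    have h2 := (hYB (τ (tm u j)) (ce c φ u j) (mm τ (u - 1) (j / 2)) ((2 : ℝ) ^ (om u 0 0)) k g
      (hG.1 _) (by positivity) hg).2.2.2.2 a h hh x
    rw [h1, h2]
    ring
  rw [Finset.sum_congr rfl hj, Finset.sum_add_distrib, ← Finset.mul_sum]
  ring

theorem VF3_smul (hYB : StYB) (c : Pl) {φ τ : ℝ → ℝ} (hG : Graph φ τ) (u : ℕ) (k : ℤ) (a : ℝ)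
    {g : Pl → ℝ} (hg : BB g) (x : Pl) :
    VF3 c φ τ u k (fun y => a * g y) x = a * VF3 c φ τ u k g x := by
  have h0 : VF3 c φ τ u k (fun _ => 0) x = 0 := by
    unfold VF3 Z Y Av
    simp
  have h1 := VF3_lin hYB c hG u k a hg BB_zero_F3 x
  rw [h0] at h1
  simpa using h1

theorem VF3_meas (hYB : StYB) (c : Pl) {φ τ : ℝ → ℝ} (hG : Graph φ τ) (u : ℕ) (k : ℤ)
    {g : Pl → ℝ} (hg : BB g) : Measurable (VF3 c φ τ u k g) := by
  unfold VF3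
  refine Measurable.const_mul (Finset.measurable_sum _ fun j _ => ?_) _
  unfold Z
  exact (hYB _ _ _ _ _ _ (hG.1 _) (by positivity) hg).1.1.sub
    (hYB _ _ _ _ _ _ (hG.1 _) (by positivity) hg).1.1

theorem Sa_meas_F3 (hYB : StYB) (c : Pl) {φ τ : ℝ → ℝ} (hG : Graph φ τ) (u : ℕ) (k : ℤ)
    {g : Pl → ℝ} (hg : BB g) : Measurable (Sa c φ τ u k g) := by
  unfold Sa
  refine Measurable.const_mul (Finset.measurable_sum _ fun j _ => ?_) _
  exact (hYB _ _ _ _ _ _ (hG.1 _) (by positivity) hg).1.1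

/-! ## Chebyshev -/

theorem cheb1_F3 (f : Pl → ℝ) (hf : Measurable f) (t : ℝ) (ht : 0 < t) :
    volume {x | t ≤ |f x|} ≤ ENNReal.ofReal ((1 / t) ^ 2) * ∫⁻ x, ‖f x‖ₑ ^ 2 := by
  have h1 : volume {x | ENNReal.ofReal (t ^ 2) ≤ ‖f x‖ₑ ^ 2} ≤
      (∫⁻ x, ‖f x‖ₑ ^ 2) / ENNReal.ofReal (t ^ 2) := by
    refine meas_ge_le_lintegral_div ?_ ?_ ENNReal.ofReal_ne_top
    · exact (hf.enorm.pow_const 2).aemeasurable
    · have : 0 < t ^ 2 := by positivity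
      simpa using this.ne'
  have h2 : {x | t ≤ |f x|} ⊆ {x | ENNReal.ofReal (t ^ 2) ≤ ‖f x‖ₑ ^ 2} := by
    intro x hx
    rw [mem_ofPred_eq] at hx ⊢
    rw [ENNReal.ofReal_pow ht.le, ← ofReal_norm, Real.norm_eq_abs]
    exact pow_le_pow_left₀ (by positivity) (ENNReal.ofReal_le_ofReal hx) 2
  refine le_trans (measure_mono h2) (le_trans h1 (le_of_eq ?_))
  rw [ENNReal.div_eq_inv_mul, ← ENNReal.ofReal_inv_of_pos (by positivity)]
  congr 2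
  rw [one_div, inv_pow]

theorem cheb_F3 (f : ℤ → Pl → ℝ) (hf : ∀ k, Measurable (f k)) (t : ℝ) (ht : 0 < t) :
    ∑' k : ℤ, volume {x | t ≤ |f k x|} ≤
      ENNReal.ofReal ((1 / t) ^ 2) * ∑' k : ℤ, ∫⁻ x, ‖f k x‖ₑ ^ 2 := by
  rw [← ENNReal.tsum_mul_left]
  exact ENNReal.tsum_le_tsum fun k => cheb1_F3 (f k) (hf k) t ht

/-! ## polynomial factors -/

theorem pol_F3 (n : ℕ) (ε : ℝ) (hε : 0 < ε) : ∃ C : ℝ, 0 < C ∧ ∀ u : ℕ,
    ((u : ℝ) + 1) ^ n * (2 : ℝ) ^ (-(2 * ε * u)) ≤ C * (2 : ℝ) ^ (-(ε * u)) := by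
  have hl : 0 < Real.log 2 := Real.log_pos (by norm_num)
  set δ : ℝ := ε * Real.log 2 / (n + 1) with hδ
  have hδ0 : 0 < δ := by positivity
  set M : ℝ := max 1 (1 / δ) with hM
  have hM1 : 1 ≤ M := le_max_left _ _
  have hM2 : 1 ≤ M * δ := by
    have : 1 / δ ≤ M := le_max_right _ _
    calc (1 : ℝ) = 1 / δ * δ := by field_simp
      _ ≤ M * δ := mul_le_mul_of_nonneg_right this hδ0.le
  refine ⟨M ^ n, by positivity, fun u => ?_⟩
  have hu : (0 : ℝ) ≤ u := Nat.cast_nonneg u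
  have h1 : (u : ℝ) + 1 ≤ M * Real.exp (δ * u) := by
    have h2 := Real.add_one_le_exp (δ * u)
    have h3 : M * (δ * u + 1) ≤ M * Real.exp (δ * u) :=
      mul_le_mul_of_nonneg_left h2 (by positivity)
    have h4 : (u : ℝ) * 1 ≤ u * (M * δ) := mul_le_mul_of_nonneg_left hM2 hu
    nlinarith
  have h5 : ((u : ℝ) + 1) ^ n ≤ M ^ n * Real.exp (n * (δ * u)) := by
    calc ((u : ℝ) + 1) ^ n ≤ (M * Real.exp (δ * u)) ^ n := pow_le_pow_left₀ (by positivity) h1 n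
      _ = M ^ n * Real.exp (n * (δ * u)) := by rw [mul_pow, ← Real.exp_nat_mul]
  have h6 : Real.exp (n * (δ * u)) ≤ (2 : ℝ) ^ (ε * u) := by
    rw [Real.rpow_def_of_pos (by norm_num)]
    refine Real.exp_le_exp.2 ?_
    have h7 : (n : ℝ) * δ ≤ ε * Real.log 2 := by
      rw [hδ, mul_div_assoc', div_le_iff₀ (by positivity)]
      nlinarith [mul_pos hε hl]
    calc (n : ℝ) * (δ * u) = (n * δ) * u := by ring
      _ ≤ (ε * Real.log 2) * u := mul_le_mul_of_nonneg_right h7 hu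
      _ = Real.log 2 * (ε * u) := by ring
  calc ((u : ℝ) + 1) ^ n * (2 : ℝ) ^ (-(2 * ε * u))
      ≤ (M ^ n * (2 : ℝ) ^ (ε * u)) * (2 : ℝ) ^ (-(2 * ε * u)) := by
        refine mul_le_mul_of_nonneg_right (le_trans h5 ?_) (by positivity)
        exact mul_le_mul_of_nonneg_left h6 (by positivity)
    _ = M ^ n * (2 : ℝ) ^ (-(ε * u)) := by
        rw [mul_assoc, ← Real.rpow_add (by norm_num)]
        congr 2
        ring

/-! ## monotonicity of `Fam` -/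

theorem Fam_mono_F3 {u K : ℕ} {Cf Cf' A σ : ℝ} {s : ℕ → ℝ} {g : Pl → ℝ}
    {Zf : ℕ → ℤ → ℕ → Pl → ℝ} (hA : 0 ≤ A) (h : Cf ≤ Cf')
    (hF : Fam u Cf K A σ s g Zf) : Fam u Cf' K A σ s g Zf where
  one := hF.one
  cont := hF.cont
  inv := hF.inv
  lb := by
    intro W k x
    refine le_trans (hF.lb W k x) ?_
    refine mul_le_mul' (ENNReal.ofReal_le_ofReal h) (lintegral_mono_set ?_)
    intro y hy
    have h2 : Cf * (2 : ℝ) ^ (k + (W : ℤ)) ≤ Cf' * (2 : ℝ) ^ (k + (W : ℤ)) :=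
      mul_le_mul_of_nonneg_right h (by positivity)
    exact ⟨le_trans hy.1 h2, le_trans hy.2 h2⟩
  all := by
    intro W
    refine le_trans (hF.all W) ?_
    gcongr
  dif := by
    intro W w w' T h1 h2 h3 h4 h5 h6
    refine le_trans (hF.dif W w w' T h1 h2 h3 h4 h5 h6) ?_
    gcongr
  tot := by
    intro W
    refine le_trans (hF.tot W) ?_
    gcongr

/-! ## decomposition -/

/-- the points where `g` is large -/
def A3 (g : Pl → ℝ) (Λ : ℝ) (n : ℕ) : Set Pl := {x | 2 ^ n * Λ / 2 ≤ g x}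

/-- the layers -/
def S3 (g : Pl → ℝ) (Λ : ℝ) (n : ℕ) : Set Pl := {x | 2 ^ n * Λ / 2 ≤ g x ∧ g x < 2 ^ n * Λ}

theorem A3_meas {g : Pl → ℝ} (hg : Measurable g) (Λ : ℝ) (n : ℕ) : MeasurableSet (A3 g Λ n) :=
  measurableSet_le measurable_const hg

theorem S3_meas {g : Pl → ℝ} (hg : Measurable g) (Λ : ℝ) (n : ℕ) : MeasurableSet (S3 g Λ n) :=
  (measurableSet_le measurable_const hg).inter (measurableSet_lt hg measurable_const)

theorem step_F3 (g : Pl → ℝ) {Λ : ℝ} (hΛ : 0 < Λ) (n : ℕ) :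
    (A3 g Λ n).indicator g =
      fun y => 1 * (S3 g Λ n).indicator g y + (A3 g Λ (n + 1)).indicator g y := by
  funext y
  have hp : (0 : ℝ) < 2 ^ n * Λ := by positivity
  have e1 : (2 : ℝ) ^ (n + 1) * Λ / 2 = 2 ^ n * Λ := by rw [pow_succ]; ring
  by_cases h1 : 2 ^ n * Λ / 2 ≤ g y
  · have m1 : y ∈ A3 g Λ n := h1
    by_cases h2 : g y < 2 ^ n * Λ
    · have m2 : y ∈ S3 g Λ n := ⟨h1, h2⟩
      have m3 : y ∉ A3 g Λ (n + 1) := by
        intro h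
        have h' : (2 : ℝ) ^ (n + 1) * Λ / 2 ≤ g y := h
        rw [e1] at h'
        linarith
      rw [indicator_of_mem m1, indicator_of_mem m2, indicator_of_notMem m3]
      ring
    · have m2 : y ∉ S3 g Λ n := fun h => h2 h.2
      have m3 : y ∈ A3 g Λ (n + 1) := by
        change (2 : ℝ) ^ (n + 1) * Λ / 2 ≤ g y
        rw [e1]
        exact not_lt.1 h2
      rw [indicator_of_mem m1, indicator_of_notMem m2, indicator_of_mem m3]
      ring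
  · have m1 : y ∉ A3 g Λ n := h1
    have m2 : y ∉ S3 g Λ n := fun h => h1 h.1
    have m3 : y ∉ A3 g Λ (n + 1) := by
      intro h
      have h' : (2 : ℝ) ^ (n + 1) * Λ / 2 ≤ g y := h
      rw [e1] at h'
      exact h1 (by linarith)
    rw [indicator_of_notMem m1, indicator_of_notMem m2, indicator_of_notMem m3]
    ring

theorem VF3_dec (hYB : StYB) (c : Pl) {φ τ : ℝ → ℝ} (hG : Graph φ τ) (u : ℕ) (k : ℤ)
    {g : Pl → ℝ} (hg : BB g) {Λ : ℝ} (hΛ : 0 < Λ) (hgv : ∀ x, g x = 0 ∨ Λ / 2 ≤ g x) (x : Pl)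
    (n : ℕ) :
    VF3 c φ τ u k g x = VF3 c φ τ u k ((A3 g Λ n).indicator g) x +
      ∑ i ∈ Finset.range n, VF3 c φ τ u k ((S3 g Λ i).indicator g) x := by
  induction n with
  | zero =>
    have h0 : (A3 g Λ 0).indicator g = g := by
      funext y
      by_cases hy : y ∈ A3 g Λ 0
      · rw [indicator_of_mem hy]
      · rw [indicator_of_notMem hy]
        rcases hgv y with h | h
        · exact h.symm
        · exact absurd (show (2 : ℝ) ^ 0 * Λ / 2 ≤ g y by simpa using h) hy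
    rw [h0]
    simp
  | succ n ih =>
    rw [ih, Finset.sum_range_succ]
    have h1 : VF3 c φ τ u k ((A3 g Λ n).indicator g) x =
        1 * VF3 c φ τ u k ((S3 g Λ n).indicator g) x +
          VF3 c φ τ u k ((A3 g Λ (n + 1)).indicator g) x := by
      conv_lhs => rw [step_F3 g hΛ n]
      exact VF3_lin hYB c hG u k 1 (BB_ind_F3 hg (S3_meas hg.1 Λ n))
        (BB_ind_F3 hg (A3_meas hg.1 Λ (n + 1))) x
    rw [h1]
    ring

/-! ## one layer -/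

theorem lay_F3 (hYB : StYB) (c : Pl) {φ τ : ℝ → ℝ} (hG : Graph φ τ) (u : ℕ) {A σ q Cf ρ CC ε1 : ℝ}
    (hq : 0 < q) (hCC : 0 < CC) (hCf : 1 ≤ Cf) (hρ : 2 * Cf ≤ ρ)
    (hu : 500 ≤ u)
    (hGD : StGD)
    (hFam : ∀ h : Pl → ℝ, BB h → (∀ x, 0 ≤ h x ∧ h x ≤ 1) →
      Fam u Cf (KA A σ u) A σ (fun j => τ (tm u j)) h (fun W k j => Z (τ (tm u j)) (ce c φ u j)
        (mm τ u j) (mm τ (u - 1) (j / 2)) ((2 : ℝ) ^ W) k h))
    (hKA : (KA A σ u : ℝ) ≤ Cf * (2 : ℝ) ^ (σ * u))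
    (hSlo : Slo u A σ (fun j => τ (tm u j)))
    (hU : ∀ (K : ℕ) (s : ℕ → ℝ) (g : Pl → ℝ) (Zf : ℕ → ℤ → ℕ → Pl → ℝ) (Λ : ℝ) (G : Set Pl),
      Fam u Cf K A σ s g Zf → (K : ℝ) ≤ Cf * (2 : ℝ) ^ (σ * u) → Slo u A σ s → BB g →
      (∀ x, 0 ≤ g x ∧ g x ≤ 1) → (∀ x ∈ G, Loc Cf Λ g x) → (2 : ℝ) ^ (-(u : ℤ)) ≤ Λ → Λ ≤ 1 →
      ∑' k : ℤ, volume {x | x ∈ G ∧ Λ / (u : ℝ) ^ 4 ≤
        |(1 / (2 : ℝ) ^ u) * ∑ j ∈ Finset.range (2 ^ u), Zf (om u 0 0) k j x|} ≤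
        ENNReal.ofReal (CC * (2 : ℝ) ^ (-(ε1 * u)) * Λ ^ (-q)) * ∫⁻ x, ‖g x‖ₑ ^ 2)
    {g : Pl → ℝ} (hg : BB g) {Λ : ℝ} (hΛ : 0 < Λ)
    (i : ℕ) (hi : i ≤ u) :
    ∑' k : ℤ, volume {x | HL ρ g x ≤ ENNReal.ofReal Λ ∧
      Λ / (400 * (u : ℝ) ^ 2 * (u + 1)) ≤ |VF3 c φ τ u k ((S3 g Λ i).indicator g) x|} ≤
      ENNReal.ofReal (CC * (2 : ℝ) ^ (-(ε1 * u)) * ((2 : ℝ) ^ q * Λ ^ (-q))) *
        ∫⁻ x in {x | g x < (2 : ℝ) ^ u * Λ}, ENNReal.ofReal (g x) ^ q := by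
  have hu0 : (500 : ℝ) ≤ u := by exact_mod_cast hu
  have hp : (0 : ℝ) < 2 ^ i * Λ := by positivity
  have h2i : (1 : ℝ) ≤ 2 ^ i := one_le_pow₀ (by norm_num)
  set a : ℝ := 1 / (2 ^ i * Λ) with ha
  have ha0 : 0 < a := by positivity
  have hgi := BB_ind_F3 hg (S3_meas hg.1 Λ i)
  set h : Pl → ℝ := fun x => a * (S3 g Λ i).indicator g x with hh
  have hhBB : BB h := BB_smul_F3 a hgi
  have hh01 : ∀ x, 0 ≤ h x ∧ h x ≤ 1 := by
    intro x
    change 0 ≤ a * (S3 g Λ i).indicator g x ∧ a * (S3 g Λ i).indicator g x ≤ 1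
    by_cases hx : x ∈ S3 g Λ i
    · rw [indicator_of_mem hx]
      have h1 : 2 ^ i * Λ / 2 ≤ g x := hx.1
      have h2 : g x < 2 ^ i * Λ := hx.2
      constructor
      · exact mul_nonneg ha0.le (by linarith)
      · rw [ha, one_div, inv_mul_le_iff₀ hp]
        linarith
    · rw [indicator_of_notMem hx]
      simp
  set Λ' : ℝ := 1 / 2 ^ i with hΛ'
  have hΛ'0 : 0 < Λ' := by positivity
  have hΛ'1 : Λ' ≤ 1 := by
    rw [hΛ', div_le_one (by positivity)]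
    exact h2i
  have hΛ'2 : (2 : ℝ) ^ (-(u : ℤ)) ≤ Λ' := by
    rw [hΛ', zpow_neg, zpow_natCast, one_div]
    exact inv_anti₀ (by positivity) (pow_le_pow_right₀ (by norm_num) hi)
  have haΛ : a * Λ = Λ' := by
    rw [ha, hΛ']
    field_simp
  -- local smallness
  have hLoc : ∀ x ∈ {x | HL ρ g x ≤ ENNReal.ofReal Λ}, Loc Cf Λ' h x := by
    intro x hx
    have hx' : HL ρ g x ≤ ENNReal.ofReal Λ := hx
    refine hGD Cf ρ Λ' h x hCf hρ hΛ'0.le hhBB ?_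
    have h1 : HL ρ h x ≤ ENNReal.ofReal a * HL ρ g x := by
      unfold HL
      refine iSup_le fun k => ?_
      have h2 : ∫⁻ w in Metric.closedBall (0 : Pl) ρ, ‖h (x - (2 : ℝ) ^ k • w)‖ₑ ≤
          ENNReal.ofReal a * ∫⁻ w in Metric.closedBall (0 : Pl) ρ, ‖g (x - (2 : ℝ) ^ k • w)‖ₑ := by
        rw [← lintegral_const_mul' _ _ ENNReal.ofReal_ne_top]
        refine lintegral_mono fun w => ?_
        rw [hh]
        simp only
        rw [enorm_mul, Real.enorm_of_nonneg ha0.le]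
        refine mul_le_mul' le_rfl ?_
        by_cases hx : x - (2 : ℝ) ^ k • w ∈ S3 g Λ i
        · rw [indicator_of_mem hx]
        · rw [indicator_of_notMem hx]
          simp
      refine le_trans h2 (mul_le_mul' le_rfl ?_)
      exact le_iSup (fun k : ℤ => ∫⁻ w in Metric.closedBall (0 : Pl) ρ,
        ‖g (x - (2 : ℝ) ^ k • w)‖ₑ) k
    refine le_trans h1 ?_
    rw [← haΛ, ENNReal.ofReal_mul ha0.le]
    exact mul_le_mul' le_rfl hx'
  have hmain := hU (KA A σ u) _ h _ Λ' {x | HL ρ g x ≤ ENNReal.ofReal Λ} (hFam h hhBB hh01)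
    hKA hSlo hhBB hh01 hLoc hΛ'2 hΛ'1
  have hsub : ∀ k : ℤ, volume {x | HL ρ g x ≤ ENNReal.ofReal Λ ∧
      Λ / (400 * (u : ℝ) ^ 2 * (u + 1)) ≤ |VF3 c φ τ u k ((S3 g Λ i).indicator g) x|} ≤
      volume {x | x ∈ {x | HL ρ g x ≤ ENNReal.ofReal Λ} ∧ Λ' / (u : ℝ) ^ 4 ≤
        |(1 / (2 : ℝ) ^ u) * ∑ j ∈ Finset.range (2 ^ u), (fun W k j => Z (τ (tm u j)) (ce c φ u j)
        (mm τ u j) (mm τ (u - 1) (j / 2)) ((2 : ℝ) ^ W) k h) (om u 0 0) k j x|} := by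
    intro k
    refine measure_mono ?_
    intro x hx
    refine ⟨hx.1, ?_⟩
    have h1 : Λ / (400 * (u : ℝ) ^ 2 * (u + 1)) ≤ |VF3 c φ τ u k ((S3 g Λ i).indicator g) x| := hx.2
    have h2 : VF3 c φ τ u k h x = a * VF3 c φ τ u k ((S3 g Λ i).indicator g) x :=
      VF3_smul hYB c hG u k a hgi x
    change Λ' / (u : ℝ) ^ 4 ≤ |VF3 c φ τ u k h x|
    rw [h2, abs_mul, abs_of_pos ha0]
    have h3 : a * (Λ / (400 * (u : ℝ) ^ 2 * (u + 1))) ≤
        a * |VF3 c φ τ u k ((S3 g Λ i).indicator g) x| := mul_le_mul_of_nonneg_left h1 ha0.le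
    refine le_trans ?_ h3
    rw [mul_div_assoc', haΛ]
    refine div_le_div_of_nonneg_left hΛ'0.le (by positivity) ?_
    have h4 : 400 * ((u : ℝ) + 1) ≤ (u : ℝ) ^ 2 := by nlinarith
    calc 400 * (u : ℝ) ^ 2 * (u + 1) = (u : ℝ) ^ 2 * (400 * ((u : ℝ) + 1)) := by ring
      _ ≤ (u : ℝ) ^ 2 * (u : ℝ) ^ 2 := mul_le_mul_of_nonneg_left h4 (by positivity)
      _ = (u : ℝ) ^ 4 := by ring
  refine le_trans (ENNReal.tsum_le_tsum hsub) (le_trans hmain ?_)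
  have hms : MeasurableSet {x : Pl | g x < (2 : ℝ) ^ u * Λ} :=
    measurableSet_lt hg.1 measurable_const
  rw [← lintegral_indicator hms, ENNReal.ofReal_mul (by positivity),
    ENNReal.ofReal_mul (p := CC * (2 : ℝ) ^ (-(ε1 * u))) (by positivity), mul_assoc, mul_assoc]
  refine mul_le_mul' le_rfl ?_
  rw [← lintegral_const_mul' _ _ ENNReal.ofReal_ne_top,
    ← lintegral_const_mul' _ _ ENNReal.ofReal_ne_top]
  refine lintegral_mono fun x => ?_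
  by_cases hx : x ∈ S3 g Λ i
  · have h1 : 2 ^ i * Λ / 2 ≤ g x := hx.1
    have h2 : g x < 2 ^ i * Λ := hx.2
    have hgx : 0 < g x := by linarith
    have hm : x ∈ {x : Pl | g x < (2 : ℝ) ^ u * Λ} := by
      change g x < (2 : ℝ) ^ u * Λ
      refine lt_of_lt_of_le h2 (mul_le_mul_of_nonneg_right ?_ hΛ.le)
      exact pow_le_pow_right₀ (by norm_num) hi
    simp only
    rw [indicator_of_mem hm]
    have h3 : ‖h x‖ₑ ^ 2 ≤ 1 := by
      have h4 : ‖h x‖ₑ ≤ 1 := by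
        rw [Real.enorm_of_nonneg (hh01 x).1, ← ENNReal.ofReal_one]
        exact ENNReal.ofReal_le_ofReal (hh01 x).2
      exact pow_le_one₀ (by positivity) h4
    refine le_trans (mul_le_mul' le_rfl h3) ?_
    rw [mul_one, ENNReal.ofReal_rpow_of_pos hgx, ← ENNReal.ofReal_mul (by positivity)]
    refine ENNReal.ofReal_le_ofReal ?_
    have h5 : Λ' ^ (-q) = ((2 : ℝ) ^ i) ^ q := by
      rw [hΛ', one_div, Real.inv_rpow (by positivity), Real.rpow_neg (by positivity), inv_inv]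
    have h6 : (2 : ℝ) ^ q * Λ ^ (-q) * g x ^ q = (2 * g x / Λ) ^ q := by
      rw [Real.div_rpow (by positivity) hΛ.le, Real.mul_rpow (by norm_num) hgx.le,
        Real.rpow_neg hΛ.le]
      ring
    rw [h5, h6]
    refine Real.rpow_le_rpow (by positivity) ?_ hq.le
    rw [le_div_iff₀ hΛ]
    linarith
  · have h0 : h x = 0 := by
      rw [hh]
      simp only
      rw [indicator_of_notMem hx]
      simp
    simp only
    rw [h0]
    simp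

/-! ## F3 -/

theorem KA_F3 (A σ : ℝ) (hA : 0 < A) (hσ : 2 < σ) (u : ℕ) :
    (KA A σ u : ℝ) + u + 1 ≤ (5 + A ^ σ) * (2 : ℝ) ^ (σ * u) := by
  have h1 : ((KA A σ u : ℕ) : ℝ) = u + 1 + (⌈(A * (2 : ℝ) ^ u) ^ σ⌉₊ : ℝ) := by
    unfold KA
    push_cast
    ring
  have h2 : (⌈(A * (2 : ℝ) ^ u) ^ σ⌉₊ : ℝ) < (A * (2 : ℝ) ^ u) ^ σ + 1 :=
    Nat.ceil_lt_add_one (by positivity)
  have h3 : (A * (2 : ℝ) ^ u) ^ σ = A ^ σ * (2 : ℝ) ^ (σ * u) := by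
    rw [Real.mul_rpow hA.le (by positivity), ← Real.rpow_natCast 2 u,
      ← Real.rpow_mul (by norm_num)]
    congr 2
    ring
  have h4 : (u : ℝ) + 1 ≤ (2 : ℝ) ^ (σ * u) := by
    have h5 : ((u : ℕ) : ℝ) < (2 : ℝ) ^ u := by exact_mod_cast Nat.lt_two_pow_self
    have h6 : (u : ℝ) + 1 ≤ (2 : ℝ) ^ u := by
      have : u + 1 ≤ 2 ^ u := Nat.lt_two_pow_self
      exact_mod_cast this
    refine le_trans h6 ?_
    rw [← Real.rpow_natCast 2 u]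
    refine Real.rpow_le_rpow_of_exponent_le (by norm_num) ?_
    have : (0 : ℝ) ≤ u := Nat.cast_nonneg u
    nlinarith
  have h7 : (1 : ℝ) ≤ (2 : ℝ) ^ (σ * u) := by
    refine Real.one_le_rpow (by norm_num) ?_
    have : (0 : ℝ) ≤ u := Nat.cast_nonneg u
    nlinarith
  rw [h3] at h2 h1
  rw [h1]
  nlinarith

theorem hF3 (_hPT : StPT) (hYB : StYB) (hSYS : StSYS) (hFAM : StFAM)
    (hERR : StERR) (hTOP : StTOP) (hGD : StGD) (hCU : StCU) : StF3 := by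
  intro φ τ A σ q c hG hGap hA hσ hσq hq3
  have hσ0 : 0 < σ := by linarith
  have hq0 : 0 < q := by linarith
  obtain ⟨CE, hCE, hE⟩ := hERR φ τ A σ c hG hGap hA hσ0
  obtain ⟨CT, hCT, hT⟩ := hTOP φ τ A σ c hG hGap hA hσ0
  obtain ⟨Cf0, hCf0, hF⟩ := hFAM 200 (‖c‖ + |φ 0| + 3) (by norm_num)
  set Cf : ℝ := max Cf0 (5 + A ^ σ) with hCf
  have hCf1 : 1 ≤ Cf := le_trans hCf0 (le_max_left _ _)
  obtain ⟨u1, CC, ε1, hCC, hε1, hU⟩ := hCU Cf A σ q hCf1 hA.le hσ hσq hq3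
  set ε : ℝ := min ε1 (1 / 2) / 2 with hε
  have hε0 : 0 < ε := by
    have : 0 < min ε1 (1 / 2) := lt_min hε1 (by norm_num)
    positivity
  have hεa : 2 * ε ≤ ε1 := by
    rw [hε]
    have := min_le_left ε1 (1 / 2)
    linarith
  have hεb : 2 * ε ≤ 1 / 2 := by
    rw [hε]
    have := min_le_right ε1 (1 / 2)
    linarith
  obtain ⟨P1, hP1, hPol6⟩ := pol_F3 6 ε hε0
  obtain ⟨P2, hP2, hPol1⟩ := pol_F3 1 ε hε0
  have hAσ : 0 < A ^ σ := by positivity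
  have hc1 : 0 < 40000 * 1024 * CE * P1 := by positivity
  have hc2 : 0 < CC * (2 : ℝ) ^ q * P2 := by positivity
  have hc3 : 0 < 160000 * CT * (5 + A ^ σ) := by positivity
  set C : ℝ := 40000 * 1024 * CE * P1 + CC * (2 : ℝ) ^ q * P2 + 160000 * CT * (5 + A ^ σ) with hC
  refine ⟨max u1 500, 2 * Cf, C, ε, le_trans (by norm_num) (le_max_right _ _), by positivity,
    by positivity, hε0, ?_⟩
  intro u ρ Λ g hu hρ hΛ hg hgv
  have hu1 : u1 ≤ u := le_trans (le_max_left _ _) hu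
  have hu5 : 500 ≤ u := le_trans (le_max_right _ _) hu
  have hu2 : 2 ≤ u := by omega
  have hur : (500 : ℝ) ≤ u := by exact_mod_cast hu5
  have hsys := (hSYS φ τ A σ c hG hGap hA hσ0 u (by omega)).2 hu2
  have hKAb := KA_F3 A σ hA hσ u
  have hKA' : (KA A σ u : ℝ) ≤ Cf * (2 : ℝ) ^ (σ * u) := by
    have h1 : (5 + A ^ σ) * (2 : ℝ) ^ (σ * u) ≤ Cf * (2 : ℝ) ^ (σ * u) :=
      mul_le_mul_of_nonneg_right (le_max_right _ _) (by positivity)
    linarith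
  have hgnn : ∀ x, 0 ≤ g x := by
    intro x
    rcases hgv x with h | h
    · rw [h]
    · linarith
  -- the three parts
  have hp1 : ∑' k : ℤ, volume {x | Λ / (200 * (u : ℝ) ^ 2) ≤
      |Sa c φ τ u k g x - Sa c φ τ (u - 1) k g x - VF3 c φ τ u k g x|} ≤
      ENNReal.ofReal (C * (2 : ℝ) ^ (-(ε * u)) * Λ ^ (-(2 : ℝ))) *
        (∫⁻ x, ENNReal.ofReal (g x) ^ 2) := by
    have h1 := cheb_F3 (fun k x => Sa c φ τ u k g x - Sa c φ τ (u - 1) k g x - VF3 c φ τ u k g x)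
      (fun k => ((Sa_meas_F3 hYB c hG u k hg).sub (Sa_meas_F3 hYB c hG (u - 1) k hg)).sub
        (VF3_meas hYB c hG u k hg)) (Λ / (200 * (u : ℝ) ^ 2)) (by positivity)
    refine le_trans h1 (le_trans (mul_le_mul' le_rfl (hE u (om u 0 0) hu2 g hg)) ?_)
    rw [← mul_assoc, ← ENNReal.ofReal_mul (by positivity)]
    have e1 : ∀ x, ‖g x‖ₑ ^ 2 = ENNReal.ofReal (g x) ^ 2 := fun x => by
      rw [Real.enorm_of_nonneg (hgnn x)]
    simp only [e1]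
    refine mul_le_mul' (ENNReal.ofReal_le_ofReal ?_) le_rfl
    have e2 : ((om u 0 0 : ℕ) : ℝ) = 1024 * (u : ℝ) ^ 2 := by
      unfold om
      push_cast
      ring
    rw [e2]
    have e3 : Λ ^ (-(2 : ℝ)) = (Λ ^ 2)⁻¹ := by
      rw [Real.rpow_neg hΛ.le, Real.rpow_two]
    have e4 : (1 / (Λ / (200 * (u : ℝ) ^ 2))) ^ 2 = 40000 * (u : ℝ) ^ 4 * (Λ ^ 2)⁻¹ := by
      field_simp
      ring
    rw [e3, e4]
    have e5 : 1024 * (u : ℝ) ^ 2 + u + 1 ≤ 1024 * ((u : ℝ) + 1) ^ 2 := by nlinarith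
    have e6 : (u : ℝ) ^ 4 ≤ ((u : ℝ) + 1) ^ 4 := pow_le_pow_left₀ (by positivity) (by linarith) 4
    have e7 : (2 : ℝ) ^ (-((u : ℝ) / 2)) ≤ (2 : ℝ) ^ (-(2 * ε * u)) := by
      refine Real.rpow_le_rpow_of_exponent_le (by norm_num) ?_
      nlinarith
    have e8 := hPol6 u
    have hL2 : 0 ≤ (Λ ^ 2)⁻¹ := by positivity
    have hX : 0 ≤ (2 : ℝ) ^ (-(ε * u)) := by positivity
    calc 40000 * (u : ℝ) ^ 4 * (Λ ^ 2)⁻¹ *
          (CE * (2 : ℝ) ^ (-((u : ℝ) / 2)) * (1024 * (u : ℝ) ^ 2 + u + 1))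
        = (40000 * CE * (Λ ^ 2)⁻¹) * ((u : ℝ) ^ 4 * (2 : ℝ) ^ (-((u : ℝ) / 2)) *
            (1024 * (u : ℝ) ^ 2 + u + 1)) := by ring
      _ ≤ (40000 * CE * (Λ ^ 2)⁻¹) * (((u : ℝ) + 1) ^ 4 * (2 : ℝ) ^ (-(2 * ε * u)) *
            (1024 * ((u : ℝ) + 1) ^ 2)) := by
          refine mul_le_mul_of_nonneg_left ?_ (by positivity)
          gcongr
      _ = (40000 * 1024 * CE * (Λ ^ 2)⁻¹) * (((u : ℝ) + 1) ^ 6 * (2 : ℝ) ^ (-(2 * ε * u))) := by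
          ring
      _ ≤ (40000 * 1024 * CE * (Λ ^ 2)⁻¹) * (P1 * (2 : ℝ) ^ (-(ε * u))) :=
          mul_le_mul_of_nonneg_left e8 (by positivity)
      _ = (40000 * 1024 * CE * P1) * (2 : ℝ) ^ (-(ε * u)) * (Λ ^ 2)⁻¹ := by ring
      _ ≤ C * (2 : ℝ) ^ (-(ε * u)) * (Λ ^ 2)⁻¹ := by
          refine mul_le_mul_of_nonneg_right (mul_le_mul_of_nonneg_right ?_ hX) hL2
          rw [hC]
          linarith
  have hp2 : ∑' k : ℤ, volume {x | Λ / (400 * (u : ℝ) ^ 2) ≤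
      |VF3 c φ τ u k ((A3 g Λ (u + 1)).indicator g) x|} ≤
      ENNReal.ofReal (C * (u : ℝ) ^ 4 * (2 : ℝ) ^ ((σ - 2) * u) * Λ ^ (-(2 : ℝ))) *
        ∫⁻ x in {x | (2 : ℝ) ^ u * Λ ≤ g x}, ENNReal.ofReal (g x) ^ 2 := by
    have hAe : A3 g Λ (u + 1) = {x | (2 : ℝ) ^ u * Λ ≤ g x} := by
      unfold A3
      ext x
      have : (2 : ℝ) ^ (u + 1) * Λ / 2 = 2 ^ u * Λ := by rw [pow_succ]; ring
      change (2 : ℝ) ^ (u + 1) * Λ / 2 ≤ g x ↔ (2 : ℝ) ^ u * Λ ≤ g x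
      rw [this]
    have hgt := BB_ind_F3 hg (A3_meas hg.1 Λ (u + 1))
    have h1 := cheb_F3 (fun k x => VF3 c φ τ u k ((A3 g Λ (u + 1)).indicator g) x)
      (fun k => VF3_meas hYB c hG u k hgt) (Λ / (400 * (u : ℝ) ^ 2)) (by positivity)
    refine le_trans h1 (le_trans (mul_le_mul' le_rfl (hT u (om u 0 0) hu2 _ hgt)) ?_)
    rw [← mul_assoc, ← ENNReal.ofReal_mul (by positivity)]
    have e1 : ∫⁻ x, ‖(A3 g Λ (u + 1)).indicator g x‖ₑ ^ 2 =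
        ∫⁻ x in {x | (2 : ℝ) ^ u * Λ ≤ g x}, ENNReal.ofReal (g x) ^ 2 := by
      rw [← hAe, ← lintegral_indicator (A3_meas hg.1 Λ (u + 1))]
      refine lintegral_congr fun x => ?_
      by_cases hx : x ∈ A3 g Λ (u + 1)
      · rw [indicator_of_mem hx, indicator_of_mem hx, Real.enorm_of_nonneg (hgnn x)]
      · rw [indicator_of_notMem hx, indicator_of_notMem hx]
        simp
    rw [e1]
    refine mul_le_mul' (ENNReal.ofReal_le_ofReal ?_) le_rfl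
    have e3 : Λ ^ (-(2 : ℝ)) = (Λ ^ 2)⁻¹ := by
      rw [Real.rpow_neg hΛ.le, Real.rpow_two]
    have e4 : (1 / (Λ / (400 * (u : ℝ) ^ 2))) ^ 2 = 160000 * (u : ℝ) ^ 4 * (Λ ^ 2)⁻¹ := by
      field_simp
      ring
    have e5 : (2 : ℝ) ^ ((σ - 2) * u) = (4 : ℝ) ^ (-(u : ℤ)) * (2 : ℝ) ^ (σ * u) := by
      have h4 : (4 : ℝ) ^ (-(u : ℤ)) = (2 : ℝ) ^ (-(2 * (u : ℝ))) := by
        rw [zpow_neg, zpow_natCast, Real.rpow_neg (by norm_num)]
        congr 1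
        rw [show (4 : ℝ) = 2 ^ (2 : ℝ) by norm_num, ← Real.rpow_natCast, ← Real.rpow_mul (by norm_num)]
      rw [h4, ← Real.rpow_add (by norm_num)]
      congr 1
      ring
    rw [e3, e4, e5]
    have hX : 0 ≤ (4 : ℝ) ^ (-(u : ℤ)) := by positivity
    have hL2 : 0 ≤ (Λ ^ 2)⁻¹ := by positivity
    calc 160000 * (u : ℝ) ^ 4 * (Λ ^ 2)⁻¹ * (CT * (4 : ℝ) ^ (-(u : ℤ)) * (KA A σ u + u + 1))
        = (160000 * (u : ℝ) ^ 4 * (Λ ^ 2)⁻¹ * CT * (4 : ℝ) ^ (-(u : ℤ))) *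
            (KA A σ u + u + 1) := by ring
      _ ≤ (160000 * (u : ℝ) ^ 4 * (Λ ^ 2)⁻¹ * CT * (4 : ℝ) ^ (-(u : ℤ))) *
            ((5 + A ^ σ) * (2 : ℝ) ^ (σ * u)) := mul_le_mul_of_nonneg_left hKAb (by positivity)
      _ = (160000 * CT * (5 + A ^ σ)) * ((u : ℝ) ^ 4 * ((4 : ℝ) ^ (-(u : ℤ)) *
            (2 : ℝ) ^ (σ * u)) * (Λ ^ 2)⁻¹) := by ring
      _ ≤ C * ((u : ℝ) ^ 4 * ((4 : ℝ) ^ (-(u : ℤ)) * (2 : ℝ) ^ (σ * u)) * (Λ ^ 2)⁻¹) := by
          refine mul_le_mul_of_nonneg_right ?_ (by positivity)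
          rw [hC]
          linarith
      _ = C * (u : ℝ) ^ 4 * ((4 : ℝ) ^ (-(u : ℤ)) * (2 : ℝ) ^ (σ * u)) * (Λ ^ 2)⁻¹ := by ring
  have hp3 : ∑ i ∈ Finset.range (u + 1), ∑' k : ℤ, volume {x | HL ρ g x ≤ ENNReal.ofReal Λ ∧
      Λ / (400 * (u : ℝ) ^ 2 * (u + 1)) ≤ |VF3 c φ τ u k ((S3 g Λ i).indicator g) x|} ≤
      ENNReal.ofReal (C * (2 : ℝ) ^ (-(ε * u)) * Λ ^ (-q)) *
        (∫⁻ x in {x | g x < (2 : ℝ) ^ u * Λ}, ENNReal.ofReal (g x) ^ q) := by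
    have h1 : ∀ i ∈ Finset.range (u + 1), ∑' k : ℤ, volume {x | HL ρ g x ≤ ENNReal.ofReal Λ ∧
        Λ / (400 * (u : ℝ) ^ 2 * (u + 1)) ≤ |VF3 c φ τ u k ((S3 g Λ i).indicator g) x|} ≤
        ENNReal.ofReal (CC * (2 : ℝ) ^ (-(ε1 * u)) * ((2 : ℝ) ^ q * Λ ^ (-q))) *
          ∫⁻ x in {x | g x < (2 : ℝ) ^ u * Λ}, ENNReal.ofReal (g x) ^ q := by
      intro i hi
      have hi' : i ≤ u := by
        have := Finset.mem_range.1 hi
        omega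
      refine lay_F3 hYB c hG u (Cf := Cf) (A := A) (σ := σ) hq0 hCC hCf1 hρ hu5 hGD ?_ hKA'
        ⟨hsys.slope, hsys.sep⟩ ?_ hg hΛ i hi'
      · intro h hh hh01
        exact Fam_mono_F3 hA.le (le_max_left _ _) (hF u _ _ _ _ _ A σ hsys hA.le h hh hh01)
      · intro K s g' Zf Λ' G' hFam' hK hS hB h01 hL hL1 hL2
        exact hU u K s g' Zf Λ' G' hu1 hFam' hK hS hB h01 hL hL1 hL2
    refine le_trans (Finset.sum_le_sum h1) ?_
    rw [Finset.sum_const, Finset.card_range, nsmul_eq_mul, ← mul_assoc]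
    refine mul_le_mul' ?_ le_rfl
    have e0 : ((u + 1 : ℕ) : ℝ≥0∞) = ENNReal.ofReal ((u : ℝ) + 1) := by
      rw [ENNReal.ofReal_add (by positivity) (by norm_num)]
      simp
    rw [e0, ← ENNReal.ofReal_mul (by positivity)]
    refine ENNReal.ofReal_le_ofReal ?_
    have e7 : (2 : ℝ) ^ (-(ε1 * u)) ≤ (2 : ℝ) ^ (-(2 * ε * u)) := by
      refine Real.rpow_le_rpow_of_exponent_le (by norm_num) ?_
      nlinarith
    have e8 := hPol1 u
    have hΛq : 0 ≤ Λ ^ (-q) := by positivity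
    have hX : 0 ≤ (2 : ℝ) ^ (-(ε * u)) := by positivity
    calc ((u : ℝ) + 1) * (CC * (2 : ℝ) ^ (-(ε1 * u)) * ((2 : ℝ) ^ q * Λ ^ (-q)))
        ≤ ((u : ℝ) + 1) * (CC * (2 : ℝ) ^ (-(2 * ε * u)) * ((2 : ℝ) ^ q * Λ ^ (-q))) := by
          gcongr
      _ = (CC * (2 : ℝ) ^ q * Λ ^ (-q)) * (((u : ℝ) + 1) ^ 1 * (2 : ℝ) ^ (-(2 * ε * u))) := by
          ring
      _ ≤ (CC * (2 : ℝ) ^ q * Λ ^ (-q)) * (P2 * (2 : ℝ) ^ (-(ε * u))) :=
          mul_le_mul_of_nonneg_left e8 (by positivity)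
      _ = (CC * (2 : ℝ) ^ q * P2) * (2 : ℝ) ^ (-(ε * u)) * Λ ^ (-q) := by ring
      _ ≤ C * (2 : ℝ) ^ (-(ε * u)) * Λ ^ (-q) := by
          refine mul_le_mul_of_nonneg_right (mul_le_mul_of_nonneg_right ?_ hX) hΛq
          rw [hC]
          linarith
  -- the union
  have hsub : ∀ k : ℤ, volume {x | HL ρ g x ≤ ENNReal.ofReal Λ ∧
      Λ / (100 * (u : ℝ) ^ 2) ≤ |Sa c φ τ u k g x - Sa c φ τ (u - 1) k g x|} ≤
      volume {x | Λ / (200 * (u : ℝ) ^ 2) ≤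
        |Sa c φ τ u k g x - Sa c φ τ (u - 1) k g x - VF3 c φ τ u k g x|} +
      (∑ i ∈ Finset.range (u + 1), volume {x | HL ρ g x ≤ ENNReal.ofReal Λ ∧
        Λ / (400 * (u : ℝ) ^ 2 * (u + 1)) ≤ |VF3 c φ τ u k ((S3 g Λ i).indicator g) x|}) +
      volume {x | Λ / (400 * (u : ℝ) ^ 2) ≤
        |VF3 c φ τ u k ((A3 g Λ (u + 1)).indicator g) x|} := by
    intro k
    have h1 : {x | HL ρ g x ≤ ENNReal.ofReal Λ ∧
      Λ / (100 * (u : ℝ) ^ 2) ≤ |Sa c φ τ u k g x - Sa c φ τ (u - 1) k g x|} ⊆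
      ({x | Λ / (200 * (u : ℝ) ^ 2) ≤
        |Sa c φ τ u k g x - Sa c φ τ (u - 1) k g x - VF3 c φ τ u k g x|} ∪
      (⋃ i ∈ Finset.range (u + 1), {x | HL ρ g x ≤ ENNReal.ofReal Λ ∧
        Λ / (400 * (u : ℝ) ^ 2 * (u + 1)) ≤ |VF3 c φ τ u k ((S3 g Λ i).indicator g) x|})) ∪
      {x | Λ / (400 * (u : ℝ) ^ 2) ≤
        |VF3 c φ τ u k ((A3 g Λ (u + 1)).indicator g) x|} := by
      intro x hx
      have hx1 : HL ρ g x ≤ ENNReal.ofReal Λ := hx.1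
      have hx2 : Λ / (100 * (u : ℝ) ^ 2) ≤ |Sa c φ τ u k g x - Sa c φ τ (u - 1) k g x| := hx.2
      by_contra hcon
      rw [mem_union, mem_union, not_or, not_or] at hcon
      obtain ⟨⟨n1, n2⟩, n3⟩ := hcon
      have n1' : |Sa c φ τ u k g x - Sa c φ τ (u - 1) k g x - VF3 c φ τ u k g x| <
          Λ / (200 * (u : ℝ) ^ 2) := not_le.1 n1
      have n3' : |VF3 c φ τ u k ((A3 g Λ (u + 1)).indicator g) x| < Λ / (400 * (u : ℝ) ^ 2) :=
        not_le.1 n3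
      have n2' : ∀ i ∈ Finset.range (u + 1), |VF3 c φ τ u k ((S3 g Λ i).indicator g) x| ≤
          Λ / (400 * (u : ℝ) ^ 2 * (u + 1)) := by
        intro i hi
        by_contra hc
        apply n2
        exact mem_biUnion hi ⟨hx1, (not_le.1 hc).le⟩
      have hdec := VF3_dec hYB c hG u k hg hΛ hgv x (u + 1)
      have h2 : |VF3 c φ τ u k g x| < Λ / (200 * (u : ℝ) ^ 2) := by
        rw [hdec]
        have h3 : |∑ i ∈ Finset.range (u + 1), VF3 c φ τ u k ((S3 g Λ i).indicator g) x| ≤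
            Λ / (400 * (u : ℝ) ^ 2) := by
          refine le_trans (Finset.abs_sum_le_sum_abs _ _) (le_trans (Finset.sum_le_sum n2') ?_)
          rw [Finset.sum_const, Finset.card_range, nsmul_eq_mul]
          apply le_of_eq
          push_cast
          field_simp
        have h4 : Λ / (200 * (u : ℝ) ^ 2) = Λ / (400 * (u : ℝ) ^ 2) + Λ / (400 * (u : ℝ) ^ 2) := by
          field_simp
          norm_num
        rw [h4]
        exact lt_of_le_of_lt (abs_add_le _ _) (add_lt_add_of_lt_of_le n3' h3)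
      have h5 : |Sa c φ τ u k g x - Sa c φ τ (u - 1) k g x| <
          Λ / (200 * (u : ℝ) ^ 2) + Λ / (200 * (u : ℝ) ^ 2) := by
        have h6 : Sa c φ τ u k g x - Sa c φ τ (u - 1) k g x =
            (Sa c φ τ u k g x - Sa c φ τ (u - 1) k g x - VF3 c φ τ u k g x) +
              VF3 c φ τ u k g x := by ring
        rw [h6]
        exact lt_of_le_of_lt (abs_add_le _ _) (add_lt_add n1' h2)
      have h7 : Λ / (100 * (u : ℝ) ^ 2) = Λ / (200 * (u : ℝ) ^ 2) + Λ / (200 * (u : ℝ) ^ 2) := by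
        field_simp
        norm_num
      rw [← h7] at h5
      linarith
    refine le_trans (measure_mono h1) (le_trans (measure_union_le _ _) (add_le_add ?_ le_rfl))
    refine le_trans (measure_union_le _ _) (add_le_add le_rfl ?_)
    exact measure_biUnion_finset_le _ _
  refine le_trans (ENNReal.tsum_le_tsum hsub) ?_
  rw [ENNReal.tsum_add, ENNReal.tsum_add]
  refine add_le_add (add_le_add hp1 ?_) hp2
  rw [Summable.tsum_finsetSum (fun i _ => ENNReal.summable)]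
  exact hp3

end Pool.Agent.Helper76.RG
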